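import Pool.Agent.CTR6.Main
import Pool.Agent.CTR6.U5

/-!
# MP_7d00fe_an, Q1: the exact exponent of growth for every `0 < p < 2`

For every `0 < p < 2` both `N^real_{n,p}` and `N^comp_{n,p}` are `n^{1/p-1/2}` divided by a factor
between `c (log n)^{1/max(p,1)-1/2}` and `C (log n)^{12/p}`; in particular the exponent is
`1/p-1/2`, and a loss of a positive power of `log n` is really there.  The definitions are in
`Pool/Agent/Lib_helper21/CoeffTruncDefs.lean`, the proof is in `Pool/Agent/CTR6/`.

Idea of the lower bound: there are about `log n` pairwise coprime moduli `q_i = O(log n)` whose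
product `v` is `n` up to logarithms, and integers `c_i` with `∑ c_i/q_i = 1/v` modulo `1`.  So
`a_j = ∑ frac(c_i j²/q_i)` is `j²/v` modulo `1`, while a polynomial with the coefficients
`κ_j a_j` is a sum of `O(log² n)` rotated kernels.  The distance of `a_j` to the nearest integer is
a combination of `O(log n)` truncations of `a_j`, and it correlates with `cos(2π j²/v)`, which is
flat by Weyl's inequality.

Idea of the upper bound: sampling on a grid writes the coefficients `a_j` as an exponential sum
with few large weights; for the large weights the truncation is approximated by Bernstein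
polynomials of degree about `log n`, which are multipliers of norm `n^ε`, and the rest is small in
`ℓ_2`.
-/

open Pool.Agent.Lib_helper21.CoeffTrunc

namespace Pool.Agent.Results.MP_7d00fe_an.SharpExponent

/-- **The exact exponent, with logarithmic factors on both sides.** -/
theorem result : ∀ p : ℝ, 0 < p → p < 2 →
    (∃ c C : ℝ, 0 < c ∧ 0 < C ∧ ∀ n : ℕ, 2 ≤ n →
      ENNReal.ofReal (c * (n:ℝ) ^ (1 / p - 1 / 2) / (Real.log n) ^ (12 / p)) ≤ NReal n p ∧
      NReal n p ≤ NComp n p ∧
      NComp n p ≤ ENNReal.ofReal (C * (n:ℝ) ^ (1 / p - 1 / 2) /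
        (Real.log n) ^ (1 / max p 1 - 1 / 2))) ∧
    ∀ n : ℕ, NComp n p ≤ ENNReal.ofReal ((n + 1 : ℝ) ^ (1 / p - 1 / 2)) := by
  intro p hp hp2
  obtain ⟨c, hc, h1⟩ := Pool.Agent.CTR6.growth hp hp2
  obtain ⟨C, hC, h2⟩ := Pool.Agent.CTR6.growth_up hp hp2
  exact ⟨⟨c, C, hc, hC, fun n hn => ⟨h1 n hn, real_le_comp n p, h2 n hn⟩⟩,
    fun n => Pool.Agent.CTR6.NComp_le hp hp2 n⟩

end Pool.Agent.Results.MP_7d00fe_an.SharpExponent
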