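import Pool.Agent.Lib_helper21.CoeffTruncProof

/-!
# MP_7d00fe_an, Q2: the coefficient truncation operator is unbounded on `L_p` for every `0 < p < 2`

For a polynomial `P = ∑ a_j z^j` the operator `S_n` pulls every coefficient radially into the closed
unit disc.  We prove that for every `0 < p < 2` the suprema `sup_n N^real_{n,p}` and
`sup_n N^comp_{n,p}` are infinite, so Q2 has a negative answer.  The definitions are in
`Pool/Agent/Lib_helper21/CoeffTruncDefs.lean`, the proof is in
`Pool/Agent/Lib_helper21/CoeffTruncProof.lean`.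
-/

open Pool.Agent.Lib_helper21.CoeffTrunc

namespace Pool.Agent.Results.MP_7d00fe_an.TruncationUnbounded

/-- **Q2 has a negative answer, already for real polynomials.** -/
theorem result : ∀ p : ℝ, 0 < p → p < 2 →
    (⨆ (n : ℕ) (_ : 1 ≤ n), NReal n p) = ⊤ ∧ (⨆ (n : ℕ) (_ : 1 ≤ n), NComp n p) = ⊤ := by
  intro p hp hp2
  have h := sup_real hp hp2
  refine ⟨h, ?_⟩
  rw [← top_le_iff, ← h]
  exact iSup₂_mono fun n _ => real_le_comp n p

end Pool.Agent.Results.MP_7d00fe_an.TruncationUnbounded
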